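import Pool.Agent.Zk96.SD.Mem

/-!
# Recognising strongly `2`-divisible graphs is `Π₃ᵖ`-complete
-/

namespace Pool.Agent.Results.MP_65ccf5_lc.PiThreeComplete

open Pool.Agent.H622R2 (StronglyDivisible matGraph)
open Pool.Agent.Zk96 (IsAdjMatrix)
open Pool.Agent.NPC

/-- The set of (codes of) adjacency matrices of strongly `2`-divisible graphs is
`Π₃ᵖ`-complete under polynomial-time many-one reductions. -/
theorem result : P3.Pi3Complete (lang fun M : List (List Bool) =>
    IsAdjMatrix M ∧ StronglyDivisible 2 (matGraph M)) :=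
  Zk96SD.div_complete

end Pool.Agent.Results.MP_65ccf5_lc.PiThreeComplete
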